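import Pool.Agent.Lib.MP_f29d01_nt.Check

/-!
# A completely multiplicative sign sequence whose sine series stays below `1/2`
-/

set_option autoImplicit false

namespace Pool.Agent.Results.MP_f29d01_nt.SevenPrimes

open Filter Topology Pool.Agent.Lib.MP_f29d01_nt

/-- `a : ℤ_{≥1} → {-1, +1}` is completely multiplicative (the value `a 0` is irrelevant). -/
def CompletelyMultiplicative (a : ℕ → ℤ) : Prop :=
  (∀ n : ℕ, 1 ≤ n → a n = 1 ∨ a n = -1) ∧ a 1 = 1 ∧
    ∀ m n : ℕ, 1 ≤ m → 1 ≤ n → a (m * n) = a m * a n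

/-- The partial sums `∑_{1 ≤ n ≤ N} a_n sin(2 π n t) / (π n)` converge to `L`, i.e. `s_a(t) = L`. -/
def HasValue (a : ℕ → ℤ) (t L : ℝ) : Prop :=
  Tendsto (fun N : ℕ => ∑ n ∈ Finset.Icc 1 N,
    (a n : ℝ) * Real.sin (2 * Real.pi * (n : ℝ) * t) / (Real.pi * (n : ℝ))) atTop (𝓝 L)

/-- The sign sequence: `-1` exactly at the seven primes `2003, …, 54709`. -/
def sg (n : ℕ) : ℤ := (F.map fun q => (-1 : ℤ) ^ padicValNat q n).prod

/-- The same sequence as an iterated flip. -/
noncomputable def sgn : ℕ → ℝ :=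
  flipAt (flipAt (flipAt (flipAt (flipAt (flipAt (flipAt one1 54709) 54371) 36761) 18713) 17137)
    13469) 2003

theorem sg_cast (n : ℕ) : (sg n : ℝ) = sgn n := by
  simp only [sg, F, sgn, flipAt, one1, List.map_cons, List.map_nil, List.prod_cons, List.prod_nil]
  push_cast
  ring

theorem bd_exists : ∃ m δ D : ℝ, Bd sgn F m δ D ∧ D ≤ 6 / 10000000 := by
  have h0 := Bd.base
  have h1 := h0.step (p := 54709) (by norm_num) (by decide)
  have h2 := h1.step (p := 54371) (by norm_num) (by decide)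
  have h3 := h2.step (p := 36761) (by norm_num) (by decide)
  have h4 := h3.step (p := 18713) (by norm_num) (by decide)
  have h5 := h4.step (p := 17137) (by norm_num) (by decide)
  have h6 := h5.step (p := 13469) (by norm_num) (by decide)
  have h7 := h6.step (p := 2003) (by norm_num) (by decide)
  refine ⟨_, _, _, h7, ?_⟩
  norm_num

theorem upper_mem {t L : ℝ} (h0 : 0 < t) (h1 : t < 1)
    (hL : Tendsto (fun N : ℕ => (1 / Real.pi) *
      ∑ n ∈ Finset.Icc 1 N, sgn n * Real.sin (2 * Real.pi * (n : ℝ) * t) / (n : ℝ))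
      atTop (𝓝 L)) : L ≤ 1 / 2 - 4 / 10000000 := by
  obtain ⟨m, δ, D, hB, hD⟩ := bd_exists
  have e1 := upper hB hL
  have e2 := V_le h0 h1
  linarith

theorem bound {t L : ℝ} (h : HasValue sg t L) : |L| ≤ 1 / 2 - 4 / 10000000 := by
  have hL : Tendsto (fun N : ℕ => (1 / Real.pi) *
      ∑ n ∈ Finset.Icc 1 N, sgn n * Real.sin (2 * Real.pi * (n : ℝ) * t) / (n : ℝ))
      atTop (𝓝 L) := by
    refine h.congr fun N => ?_
    rw [Finset.mul_sum]
    refine Finset.sum_congr rfl fun n _ => ?_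
    rw [sg_cast, div_mul_div_comm, one_mul]
  have hsin : ∀ n : ℕ, Real.sin (2 * Real.pi * (n : ℝ) * t) =
      Real.sin (2 * Real.pi * (n : ℝ) * Int.fract t) := by
    intro n
    have e : 2 * Real.pi * (n : ℝ) * t = 2 * Real.pi * (n : ℝ) * Int.fract t +
        (((n : ℤ) * ⌊t⌋ : ℤ) : ℝ) * (2 * Real.pi) := by
      have := Int.fract_add_floor t
      conv_lhs => rw [← this]
      push_cast
      ring
    rw [e, Real.sin_add_int_mul_two_pi]
  have hL1 : Tendsto (fun N : ℕ => (1 / Real.pi) *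
      ∑ n ∈ Finset.Icc 1 N, sgn n * Real.sin (2 * Real.pi * (n : ℝ) * Int.fract t) / (n : ℝ))
      atTop (𝓝 L) := by
    refine hL.congr ?_
    intro N
    congr 1
    apply Finset.sum_congr rfl
    intro n _
    rw [hsin n]
  have hL2 : Tendsto (fun N : ℕ => (1 / Real.pi) *
      ∑ n ∈ Finset.Icc 1 N, sgn n * Real.sin (2 * Real.pi * (n : ℝ) * (1 - Int.fract t)) / (n : ℝ))
      atTop (𝓝 (-L)) := by
    refine hL1.neg.congr ?_
    intro N
    rw [← mul_neg, ← Finset.sum_neg_distrib]
    congr 1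
    apply Finset.sum_congr rfl
    intro n _
    have e : 2 * Real.pi * (n : ℝ) * (1 - Int.fract t) =
        (n : ℝ) * (2 * Real.pi) - 2 * Real.pi * (n : ℝ) * Int.fract t := by ring
    rw [e, Real.sin_nat_mul_two_pi_sub]
    ring
  rcases eq_or_lt_of_le (Int.fract_nonneg t) with h | h
  · have hL0 : L = 0 := by
      have : Tendsto (fun _ : ℕ => (0 : ℝ)) atTop (𝓝 L) := by
        refine hL1.congr ?_
        intro N
        rw [← h]
        simp
      exact (tendsto_nhds_unique this tendsto_const_nhds)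
    rw [hL0, abs_zero]
    norm_num
  · have h1 := Int.fract_lt_one t
    have e1 := upper_mem h h1 hL1
    have e2 := upper_mem (by linarith) (by linarith) hL2
    exact abs_le.mpr ⟨by linarith, e1⟩

theorem sg_cm : CompletelyMultiplicative sg := by
  obtain ⟨m, δ, D, hB, -⟩ := bd_exists
  refine ⟨fun n hn => ?_, ?_, fun m n hm hn => ?_⟩
  · rcases hB.cm.pm n hn with h | h
    · left
      rw [← sg_cast] at h
      exact_mod_cast h
    · right
      rw [← sg_cast] at h
      exact_mod_cast h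
  · have h := hB.cm.one
    rw [← sg_cast] at h
    exact_mod_cast h
  · have h := hB.cm.mul m n hm hn
    rw [← sg_cast, ← sg_cast, ← sg_cast] at h
    exact_mod_cast h

theorem pval (q p : ℕ) (hq : q.Prime) (hp : p.Prime) :
    (-1 : ℤ) ^ padicValNat q p = if q = p then -1 else 1 := by
  have := Fact.mk hq
  have := Fact.mk hp
  split_ifs with h
  · subst h
    rw [padicValNat_self, pow_one]
  · rw [padicValNat_primes h, pow_zero]

theorem sg_prime (p : ℕ) (hp : p.Prime) :
    sg p = -1 ↔ p ∈ ({2003, 13469, 17137, 18713, 36761, 54371, 54709} : Finset ℕ) := by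
  have e : sg p = (F.map fun q => if q = p then (-1 : ℤ) else 1).prod := by
    unfold sg
    congr 1
    exact List.map_congr_left fun q hq => pval q p (prime_F q hq) hp
  rw [e]
  constructor
  · intro h
    by_contra hne
    simp only [Finset.mem_insert, Finset.mem_singleton, not_or] at hne
    obtain ⟨h1, h2, h3, h4, h5, h6, h7⟩ := hne
    simp only [F, List.map_cons, List.map_nil, List.prod_cons, List.prod_nil, Ne.symm h1,
      Ne.symm h2, Ne.symm h3, Ne.symm h4, Ne.symm h5, Ne.symm h6, Ne.symm h7, if_false] at h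
    norm_num at h
  · intro h
    simp only [Finset.mem_insert, Finset.mem_singleton] at h
    rcases h with rfl | rfl | rfl | rfl | rfl | rfl | rfl <;> decide

/-- **The supremum of `|s_a|` can be smaller than `1/2`**: let `a` be the completely multiplicative
sequence with `a_p = -1` exactly for the seven primes `p` below. Then `|s_a(t)| ≤ 1/2 - 4·10⁻⁷` for
every real `t` at which the series converges, so the supremum over these `t` is smaller than
`1/2`. -/
theorem result : ∃ a : ℕ → ℤ, CompletelyMultiplicative a ∧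
    (∀ p : ℕ, p.Prime → (a p = -1 ↔
      p ∈ ({2003, 13469, 17137, 18713, 36761, 54371, 54709} : Finset ℕ))) ∧
    (∀ t L : ℝ, HasValue a t L → |L| ≤ 1 / 2 - 4 / 10 ^ 7) ∧
    BddAbove {x : ℝ | ∃ t L : ℝ, HasValue a t L ∧ x = |L|} ∧
    {x : ℝ | ∃ t L : ℝ, HasValue a t L ∧ x = |L|}.Nonempty ∧
    sSup {x : ℝ | ∃ t L : ℝ, HasValue a t L ∧ x = |L|} < 1 / 2 := by
  have hb : ∀ t L : ℝ, HasValue sg t L → |L| ≤ 1 / 2 - 4 / 10 ^ 7 := by
    intro t L h
    have := bound h
    norm_num at this ⊢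
    exact this
  have hne : {x : ℝ | ∃ t L : ℝ, HasValue sg t L ∧ x = |L|}.Nonempty := by
    refine ⟨0, 0, 0, ?_, by simp⟩
    unfold HasValue
    simp
  have hub : ∀ x ∈ {x : ℝ | ∃ t L : ℝ, HasValue sg t L ∧ x = |L|}, x ≤ 1 / 2 - 4 / 10 ^ 7 := by
    rintro x ⟨t, L, h, rfl⟩
    exact hb t L h
  refine ⟨sg, sg_cm, sg_prime, hb, ⟨_, hub⟩, hne, ?_⟩
  exact lt_of_le_of_lt (csSup_le hne hub) (by norm_num)

end Pool.Agent.Results.MP_f29d01_nt.SevenPrimes
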